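import Pool.Agent.Run7.h601.ZN.Irr

set_option autoImplicit false

namespace Pool.Agent.Run7.h601.ZN

open Finset CategoryTheory

theorem main_of (hBUR : S_BUR) (hINN : S_INN) (hREC : S_REC) (hKID : S_KID) (hORT : S_ORT)
    (hNRM : S_NRM) (hSPN : S_SPN) (hINT : S_INT) (hDEG : S_DEG) (hCNJ : S_CNJ) (hDIV : S_DIV)
    (hVAL : S_VAL) (hCOR : S_COR) (hPER : S_PER) (hORG : S_ORG) (hSIE : S_SIE) (hFIN : S_FIN) :
    S_MAIN := by
  intro N
  have hirr := t_IRR (hNRM (hINN hBUR) (hORT hREC hKID)) hSPN hINT hDEG hCNJ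
  obtain ⟨M₀, n₀, hM₀, hF⟩ := hFIN hVAL hCOR (hSIE hPER hORG) N
  refine ⟨n₀, fun n hn L hL hcov => ?_⟩
  by_contra hlen
  push Not at hlen
  have hk : n ≤ M₀ * n := Nat.le_mul_of_pos_left n hM₀
  apply hF n (M₀ * n) hn (dvd_mul_right _ _)
    (L.map (fun V : FDRep ℂ (Equiv.Perm (Fin n)) => Module.finrank ℂ V))
    (by rw [List.length_map]; exact hlen)
  · intro f hf
    rw [List.mem_map] at hf
    obtain ⟨V, hV, rfl⟩ := hf
    exact hirr n (M₀ * n) hk V (hL V hV)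
  · have := hDIV (Equiv.Perm (Fin n)) L hcov
    rwa [Fintype.card_perm, Fintype.card_fin] at this

end Pool.Agent.Run7.h601.ZN
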