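import Mathlib

/-!
# Project ZN (MP_6ade60_al): covering `S_n` by zero sets of few irreducible characters, `Z(n) → ∞`

Definitions. `k` is the number of letters (beads), a vector `l : Fin k → ℤ` is a vector of beta
numbers; it belongs to a partition of `n` when it is strictly increasing, nonnegative and has sum
`n + k(k-1)/2`.
-/

set_option autoImplicit false

namespace Pool.Agent.Run7.h601.ZN

open Finset

/-- number of occurrences of the letter `i` in the word `w` -/
def cnt {n : ℕ} {ι : Type} [DecidableEq ι] (w : Fin n → ι) (i : ι) : ℕ :=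
  (univ.filter (fun x => w x = i)).card

/-- the permutation character of `S_n` on the words with `α i` letters `i` -/
def fixW {n k : ℕ} (α : Fin k → ℤ) (σ : Equiv.Perm (Fin n)) : ℤ :=
  ((univ.filter (fun w : Fin n → Fin k =>
    (∀ i, (cnt w i : ℤ) = α i) ∧ ∀ x, w (σ x) = w x)).card : ℤ)

/-- the virtual character attached to the beta numbers `l` (Jacobi-Trudi determinant of
permutation characters) -/
def vch {n k : ℕ} (l : Fin k → ℤ) (σ : Equiv.Perm (Fin n)) : ℤ :=
  ∑ τ : Equiv.Perm (Fin k), (Equiv.Perm.sign τ : ℤ) * fixW (fun i => l i - ((τ i : ℕ) : ℤ)) σ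

/-- number of `k × k` matrices over `ℕ` with sum of entries `n`, row sums `α`, column sums `β` -/
def mat (n : ℕ) {k : ℕ} (α β : Fin k → ℤ) : ℤ :=
  (((piAntidiag (univ : Finset (Fin k × Fin k)) n).filter (fun A : Fin k × Fin k → ℕ =>
    (∀ i, ((∑ j, A (i, j) : ℕ) : ℤ) = α i) ∧ (∀ j, ((∑ i, A (i, j) : ℕ) : ℤ) = β j))).card : ℤ)

/-- subtract `r` from the entry `i` -/
def sb {k : ℕ} (α : Fin k → ℤ) (i : Fin k) (r : ℕ) : Fin k → ℤ :=
  fun x => if x = i then α x - r else α x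

/-- signed number of permutations that carry `l` to `m` -/
def kk {k : ℕ} (l m : Fin k → ℤ) : ℤ :=
  ∑ τ : Equiv.Perm (Fin k), if (∀ i, m i = l (τ i)) then (Equiv.Perm.sign τ : ℤ) else 0

/-- `kk` cut off at vectors with a negative entry -/
def kp {k : ℕ} (l m : Fin k → ℤ) : ℤ :=
  if (∀ i, 0 ≤ l i) ∧ (∀ i, 0 ≤ m i) then kk l m else 0

/-- number of cells with hook length divisible by `p`, in terms of the beta numbers -/
def wt (p : ℕ) {k : ℕ} (l : Fin k → ℕ) : ℤ :=
  (∑ a, ((l a / p : ℕ) : ℤ)) - ∑ a, ((((Iio a).filter (fun b => l b % p = l a % p)).card : ℕ) : ℤ)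

/-- excess of beta numbers in the residue class `j` modulo `p` -/
def cc (p : ℕ) {k : ℕ} (l : Fin k → ℕ) (j : ℕ) : ℤ :=
  ((univ.filter (fun a => l a % p = j)).card : ℤ) - ((k / p : ℕ) : ℤ)

/-- sum of the squares of the excesses -/
def dd (p : ℕ) {k : ℕ} (l : Fin k → ℕ) : ℤ := ∑ j ∈ range p, cc p l j ^ 2

/-- `f` is the degree `n! ∏_{i<j} (l_j - l_i) / ∏ l_i!` -/
def IsDeg (n : ℕ) {k : ℕ} (l : Fin k → ℕ) (f : ℕ) : Prop :=
  (f : ℤ) * ∏ i, (((l i).factorial : ℕ) : ℤ) =
    (n.factorial : ℤ) * ∏ i, ∏ j ∈ Ioi i, ((l j : ℤ) - l i)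

end Pool.Agent.Run7.h601.ZN
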