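import Pool.Agent.Run7.h601.ZN.Stm

set_option autoImplicit false

namespace Pool.Agent.Run7.h601.ZN

open Finset CategoryTheory

/-- the content with `n` letters used once -/
def al (n k : ℕ) : Fin k → ℤ := fun i => if (i : ℕ) < n then 1 else 0

theorem cnt_le_inj {n k : ℕ} (w : Fin n → Fin k) (h : ∀ i, (cnt w i : ℤ) = al n k i) :
    Function.Injective w := by
  intro x y hxy
  by_contra hne
  have h1 : 2 ≤ cnt w (w x) := by
    unfold cnt
    have : ({x, y} : Finset (Fin n)) ⊆ univ.filter (fun z => w z = w x) := by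
      intro z hz
      rw [mem_insert, mem_singleton] at hz
      rw [mem_filter]
      refine ⟨mem_univ _, ?_⟩
      rcases hz with rfl | rfl
      · rfl
      · exact hxy.symm
    have h2 := card_le_card this
    rwa [card_pair hne] at h2
  have h3 := h (w x)
  unfold al at h3
  split_ifs at h3 <;> omega

theorem fixW_al_ne {n k : ℕ} (σ : Equiv.Perm (Fin n)) (hσ : σ ≠ 1) : fixW (al n k) σ = 0 := by
  unfold fixW
  rw [Nat.cast_eq_zero, card_eq_zero, filter_eq_empty_iff]
  rintro w - ⟨h1, h2⟩
  apply hσ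
  ext x
  have := cnt_le_inj w h1 (h2 x)
  rw [this]
  rfl

theorem fixW_al_one {n k : ℕ} (hk : n ≤ k) : 0 < fixW (al n k) (1 : Equiv.Perm (Fin n)) := by
  unfold fixW
  rw [Nat.cast_pos, card_pos]
  refine ⟨fun x => Fin.castLE hk x, ?_⟩
  rw [mem_filter]
  refine ⟨mem_univ _, fun i => ?_, fun x => rfl⟩
  unfold cnt al
  split_ifs with h
  · rw [show (univ.filter (fun x : Fin n => Fin.castLE hk x = i)) = {⟨i, h⟩} by
      ext x
      rw [mem_filter, mem_singleton]
      constructor
      · rintro ⟨-, hx⟩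
        apply Fin.ext
        have := congrArg Fin.val hx
        exact this
      · rintro rfl
        exact ⟨mem_univ _, by ext; rfl⟩]
    simp
  · rw [show (univ.filter (fun x : Fin n => Fin.castLE hk x = i)) = ∅ by
      rw [filter_eq_empty_iff]
      rintro x - hx
      apply h
      rw [← hx]
      exact x.2]
    simp

theorem t_IRR : S_IRR := by
  intro hN hS hI hD hC n k hnk V hV
  have := hV
  set G := Equiv.Perm (Fin n) with hG
  have hcard : (Nat.card (Equiv.Perm (Fin n)) : ℂ) = (n.factorial : ℂ) := by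
    rw [Nat.card_eq_fintype_card, Fintype.card_perm, Fintype.card_fin]
  have hfac : (n.factorial : ℂ) ≠ 0 := by exact_mod_cast Nat.factorial_ne_zero n
  -- the dimension is not zero
  have horth : ∑ g : G, V.character g * V.character g⁻¹ = (n.factorial : ℂ) := by
    letI : Invertible (Nat.card (Equiv.Perm (Fin n)) : ℂ) :=
      invertibleOfNonzero (by rw [hcard]; exact hfac)
    have h := FDRep.char_orthonormal V V
    rw [if_pos ⟨Iso.refl V⟩, hcard, inv_mul_eq_iff_eq_mul₀ hfac, mul_one] at h
    exact h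
  have hdim : V.character 1 ≠ 0 := by
    intro h0
    rw [FDRep.char_one] at h0
    have h1 : Module.finrank ℂ V = 0 := by exact_mod_cast h0
    have h2 : ∀ g : G, V.character g = 0 := by
      intro g
      have : Subsingleton V := Module.finrank_zero_iff.1 h1
      show LinearMap.trace ℂ V (V.ρ g) = 0
      rw [Subsingleton.elim (V.ρ g) 0, map_zero]
    rw [sum_congr rfl (fun g _ => by rw [h2 g, zero_mul]), sum_const_zero] at horth
    exact hfac horth.symm
  -- the functional
  let Φ : (G → ℤ) →ₗ[ℤ] ℂ :=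
    { toFun := fun f => ∑ g : G, V.character g * ((f g : ℤ) : ℂ)
      map_add' := by
        intro f f'
        rw [← sum_add_distrib]
        refine sum_congr rfl (fun g _ => ?_)
        rw [Pi.add_apply]
        push_cast
        ring
      map_smul' := by
        intro c f
        rw [smul_sum]
        refine sum_congr rfl (fun g _ => ?_)
        rw [Pi.smul_apply]
        simp only [smul_eq_mul, zsmul_eq_mul, RingHom.id_apply]
        push_cast
        ring }
  have hΦ : Φ (fun σ => fixW (al n k) σ) ≠ 0 := by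
    show ∑ g : G, V.character g * ((fixW (al n k) g : ℤ) : ℂ) ≠ 0
    rw [sum_eq_single (1 : G) (fun g _ hg => by rw [fixW_al_ne g hg]; simp)
      (fun h => absurd (mem_univ _) h)]
    refine mul_ne_zero hdim ?_
    have := fixW_al_one hnk
    exact_mod_cast this.ne'
  obtain ⟨l, hl1, hl2, hl3, hl4⟩ : ∃ l : Fin k → ℤ, StrictMono l ∧ (∀ i, 0 ≤ l i) ∧
      ∑ i, l i = n + (k.choose 2 : ℕ) ∧ Φ (fun σ => vch l σ) ≠ 0 := by
    by_contra hcon
    apply hΦ
    have hmem := hS n k (al n k)
    refine Submodule.span_induction (p := fun f _ => Φ f = 0) ?_ (map_zero Φ) ?_ ?_ hmem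
    · rintro f ⟨l, h1, h2, h3, rfl⟩
      by_contra h4
      exact hcon ⟨l, h1, h2, h3, h4⟩
    · intro f f' _ _ h1 h2
      rw [map_add, h1, h2, add_zero]
    · intro c f _ h1
      rw [map_smul, h1, smul_zero]
  -- integrality
  obtain ⟨a, ha⟩ : ∃ a : ℤ, ∑ g : G, V.character g * ((vch l g : ℤ) : ℂ) =
      (n.factorial : ℂ) * (a : ℂ) := by
    choose z hz using fun τ : Equiv.Perm (Fin k) =>
      hI n k V (fun i => l i - ((τ i : ℕ) : ℤ))
    refine ⟨∑ τ : Equiv.Perm (Fin k), (Equiv.Perm.sign τ : ℤ) * z τ, ?_⟩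
    have h1 : ∀ g : G, V.character g * ((vch l g : ℤ) : ℂ) =
        ∑ τ : Equiv.Perm (Fin k), (((Equiv.Perm.sign τ : ℤ) : ℤ) : ℂ) *
          (V.character g * ((fixW (fun i => l i - ((τ i : ℕ) : ℤ)) g : ℤ) : ℂ)) := by
      intro g
      unfold vch
      push_cast
      rw [mul_sum]
      refine sum_congr rfl (fun τ _ => ?_)
      ring
    rw [sum_congr rfl (fun g _ => h1 g), sum_comm]
    push_cast
    rw [mul_sum]
    refine sum_congr rfl (fun τ _ => ?_)
    rw [← mul_sum, hz τ]
    ring
  have ha0 : a ≠ 0 := by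
    rintro rfl
    apply hl4
    show ∑ g : G, V.character g * ((vch l g : ℤ) : ℂ) = 0
    rw [ha]
    simp
  have hnrm : ∑ g : G, ((vch l g : ℤ) : ℂ) ^ 2 = (n.factorial : ℂ) := by
    have := hN n k l hl1 hl2 hl3
    have h2 := congrArg (fun z : ℤ => (z : ℂ)) this
    push_cast at h2
    exact h2
  have hconj : ∑ g : G, (starRingEnd ℂ) (V.character g) * ((vch l g : ℤ) : ℂ) =
      (n.factorial : ℂ) * (a : ℂ) := by
    have := congrArg (starRingEnd ℂ) ha
    rw [map_sum, map_mul, map_natCast, map_intCast] at this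
    rw [← this]
    refine sum_congr rfl (fun g _ => ?_)
    rw [map_mul, map_intCast]
  -- the square
  have hsq : ∑ g : G, Complex.normSq (V.character g - (a : ℂ) * ((vch l g : ℤ) : ℂ)) =
      (n.factorial : ℝ) * (1 - (a : ℝ) ^ 2) := by
    apply Complex.ofReal_injective
    push_cast
    have h1 : ∀ g : G, ((Complex.normSq (V.character g - (a : ℂ) * ((vch l g : ℤ) : ℂ)) : ℝ) : ℂ) =
        V.character g * V.character g⁻¹ - a * (V.character g * ((vch l g : ℤ) : ℂ)) -
          a * ((starRingEnd ℂ) (V.character g) * ((vch l g : ℤ) : ℂ)) +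
          a ^ 2 * ((vch l g : ℤ) : ℂ) ^ 2 := by
      intro g
      rw [Complex.normSq_eq_conj_mul_self, map_sub, map_mul, map_intCast, map_intCast, hC G V g]
      ring
    rw [sum_congr rfl (fun g _ => h1 g), sum_add_distrib, sum_sub_distrib, sum_sub_distrib,
      ← mul_sum, ← mul_sum, ← mul_sum, horth, ha, hconj, hnrm]
    ring
  have hpos : 0 ≤ (n.factorial : ℝ) * (1 - (a : ℝ) ^ 2) := by
    rw [← hsq]
    exact sum_nonneg (fun g _ => Complex.normSq_nonneg _)
  have hfr : (0 : ℝ) < n.factorial := by exact_mod_cast Nat.factorial_pos n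
  have ha1 : (a : ℝ) ^ 2 ≤ 1 := by
    by_contra h
    push Not at h
    have : (n.factorial : ℝ) * (1 - (a : ℝ) ^ 2) < 0 := by
      apply mul_neg_of_pos_of_neg hfr
      linarith
    linarith
  have ha2 : a ^ 2 ≤ 1 := by exact_mod_cast ha1
  have ha3 : a = 1 ∨ a = -1 := by
    have h1 : a ≤ 1 := by nlinarith
    have h2 : -1 ≤ a := by nlinarith
    omega
  have ha4 : (a : ℝ) ^ 2 = 1 := by
    rcases ha3 with h | h <;> rw [h] <;> norm_num
  have hzero : V.character 1 - (a : ℂ) * ((vch l (1 : G) : ℤ) : ℂ) = 0 := by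
    rw [ha4, sub_self, mul_zero] at hsq
    have := (sum_eq_zero_iff_of_nonneg (fun g _ => Complex.normSq_nonneg _)).1 hsq 1 (mem_univ _)
    exact Complex.normSq_eq_zero.1 this
  have hchi : (Module.finrank ℂ V : ℤ) = a * vch l (1 : G) := by
    have h1 : V.character 1 = (a : ℂ) * ((vch l (1 : G) : ℤ) : ℂ) := sub_eq_zero.1 hzero
    rw [FDRep.char_one] at h1
    exact_mod_cast h1
  -- pass to natural numbers
  have hl' : ∀ i, (((l i).toNat : ℕ) : ℤ) = l i := fun i => Int.toNat_of_nonneg (hl2 i)
  have hsum : ∑ i, (l i).toNat = n + k.choose 2 := by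
    have : ((∑ i, (l i).toNat : ℕ) : ℤ) = ((n + k.choose 2 : ℕ) : ℤ) := by
      push_cast
      rw [sum_congr rfl (fun i _ => hl' i), hl3]
    exact_mod_cast this
  have hmono : StrictMono (fun i => (l i).toNat) := by
    intro i j hij
    have := hl1 hij
    have h1 := hl' i
    have h2 := hl' j
    show (l i).toNat < (l j).toNat
    omega
  have hdeg := hD n k (fun i => (l i).toNat) hsum
  have hfun : (fun i => (((l i).toNat : ℕ) : ℤ)) = l := funext hl'
  rw [hfun] at hdeg
  have hr : 0 < (n.factorial : ℤ) * ∏ i, ∏ j ∈ Ioi i, ((((l j).toNat : ℕ) : ℤ) - ((l i).toNat : ℕ)) := by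
    apply mul_pos (by exact_mod_cast Nat.factorial_pos n)
    apply prod_pos
    intro i _
    apply prod_pos
    intro j hj
    have := hmono (mem_Ioi.1 hj)
    simp only at this
    omega
  have hp : 0 < ∏ i, ((((l i).toNat).factorial : ℕ) : ℤ) := by
    apply prod_pos
    intro i _
    exact_mod_cast Nat.factorial_pos _
  have hv : 0 < vch l (1 : G) := by
    rw [← hdeg] at hr
    by_contra hneg
    push Not at hneg
    have := mul_nonpos_of_nonpos_of_nonneg hneg hp.le
    exact absurd hr (not_lt.2 this)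
  have ha5 : a = 1 := by
    rcases ha3 with h | h
    · exact h
    · exfalso
      rw [h] at hchi
      have : (0 : ℤ) ≤ Module.finrank ℂ V := Int.natCast_nonneg _
      linarith
  refine ⟨fun i => (l i).toNat, hmono, hsum, ?_⟩
  unfold IsDeg
  rw [hchi, ha5, one_mul]
  exact hdeg

end Pool.Agent.Run7.h601.ZN
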