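import Pool.Agent.Run7.h601.ZN.Defs

/-!
# Project ZN: statements of the pieces, with proofs in words

Main theorem: for every `N` and every large `n`, no `N` irreducible characters of `S_n` have the
property that at every `σ ≠ 1` one of them vanishes.

Put the proof of `S_XXX` (a theorem `t_XXX : S_XXX`) in
`Pool/Agent/Run7/<you>/ZN/<Name>.lean`, importing this file.
-/

set_option autoImplicit false

namespace Pool.Agent.Run7.h601.ZN

open Finset CategoryTheory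

/-! ## A. Characters of `S_n` (Frobenius) -/

/-- BUR (Burnside for words, 40 lines). Fix a word `w0` of content `A`. The map `ρ ↦ w0 ∘ ρ` sends
`Perm (Fin n)` onto the words `w` of content `A` (`Equiv.ofFiberEquiv`: equal fibre cardinalities).
For `w = w0 ∘ ρ_w` the map `σ ↦ ρ_w * σ` is a bijection from `{σ | w ∘ σ = w}` onto
`{ρ | w0 ∘ ρ = w}`. Exchange the sum over `σ` and the count over `w`, then
`Finset.card_eq_sum_card_fiberwise`. -/
def S_BUR : Prop := ∀ (n : ℕ) (ι : Type) [Fintype ι] [DecidableEq ι] (A : ι → ℕ), ∑ i, A i = n →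
  ∑ σ : Equiv.Perm (Fin n), (univ.filter (fun w : Fin n → ι =>
    (∀ i, cnt w i = A i) ∧ ∀ x, w (σ x) = w x)).card = n.factorial

/-- INN (50 lines). A pair of words is a word in the letters `Fin k × Fin k`; group the pairs by
their content `A : Fin k × Fin k → ℕ`, which has sum `n`, row sums `α`, column sums `β`; each `A`
contributes `n!` by `BUR`. -/
def S_INN : Prop := S_BUR → ∀ (n k : ℕ) (α β : Fin k → ℤ),
  ∑ σ : Equiv.Perm (Fin n), fixW α σ * fixW β σ = (n.factorial : ℤ) * mat n α β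

/-- REC (60 lines). Both sides count the `(A, i, j, r)` with `1 ≤ r ≤ A (i, j)`: for a matrix `A`
with sum `n` the sum of the entries is `n`; on the other hand subtract `r` from the entry
`(i, j)`. -/
def S_REC : Prop := ∀ (n k : ℕ) (α β : Fin k → ℤ),
  (n : ℤ) * mat n α β = ∑ r ∈ Icc 1 n, ∑ i, ∑ j, mat (n - r) (sb α i r) (sb β j r)

/-- KID (100 lines). Put `E_ij(r) = kk l (m + r (e_i - e_j))` for `r : ℤ`, `i ≠ j`. The terms with
`r > n` on the left would be `0` (a nonnegative vector with sum `< k(k-1)/2` has two equal entries,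
so `kk = 0`), so `r` may range over `1..L`, `L` large. Expanding `kk` over `τ` and replacing `i` by
`τ⁻¹ i`, the left side is `∑_τ sign τ` times the number of `(i, j, r)` with
`m - r e_j = l ∘ τ - r e_i` and `r ≤ m j`, `r ≤ l (τ i)`. The terms `i = j` give
`(∑ m) kk l m = (n + k(k-1)/2) kk l m`. The terms `i ≠ j` give `∑_{i ≠ j} ∑_{r ≥ 1} E_ij(r)` (the
inequalities hold by themselves). Now `E_ji(r) = E_ij(-r)`, and with `q = m j - m i` the vector
`m + (q - r)(e_i - e_j)` is `m + r (e_i - e_j)` with the entries `i, j` exchanged, so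
`E_ij(q - r) = - E_ij(r)` and `∑_{r ∈ ℤ} E_ij(r) = 0`. Hence
`∑_{r ≥ 1} (E_ij(r) + E_ji(r)) = - E_ij(0) = - kk l m`, and the terms `i ≠ j` give
`- k(k-1)/2 * kk l m`. (Checked by computer for small `n, k`.) -/
def S_KID : Prop := ∀ (n k : ℕ) (l m : Fin k → ℤ), (∀ i, 0 ≤ l i) → (∀ i, 0 ≤ m i) →
  ∑ i, l i = n + (k.choose 2 : ℕ) → ∑ i, m i = n + (k.choose 2 : ℕ) →
  ∑ r ∈ Icc 1 n, ∑ i, ∑ j, kp (sb l i r) (sb m j r) = n * kk l m

/-- ORT (60 lines). Strong induction on `n`. If `l` or `m` has a negative entry all matrices counts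
on the left are `0` (`l i - τ i < 0`). For `n ≥ 1` multiply by `n`, use `REC` (the operations
`sb _ i r` and subtraction of `τ` commute), the induction hypothesis for `n - r` (the sums of
`sb l i r` and `sb m j r` are `n - r + k(k-1)/2`) and `KID`. For `n = 0` the count is `1` if
`l = τ` and `m = τ'` and `0` otherwise; if `l` is nonnegative with sum `k(k-1)/2` and is no
permutation of `0, ..., k-1` then two entries of `l` agree and `kk l m = 0`. -/
def S_ORT : Prop := S_REC → S_KID → ∀ (n k : ℕ) (l m : Fin k → ℤ),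
  ∑ i, l i = n + (k.choose 2 : ℕ) → ∑ i, m i = n + (k.choose 2 : ℕ) →
  ∑ τ : Equiv.Perm (Fin k), ∑ τ' : Equiv.Perm (Fin k),
    (Equiv.Perm.sign τ : ℤ) * (Equiv.Perm.sign τ' : ℤ) *
      mat n (fun i => l i - ((τ i : ℕ) : ℤ)) (fun i => m i - ((τ' i : ℕ) : ℤ)) = kp l m

/-- NRM (30 lines): expand the square, use `INN` and `ORT`; for strictly increasing `l` only
`τ = 1` contributes to `kk l l`. Here the hypotheses are the conclusions of `INN` and `ORT`. -/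
def S_NRM : Prop :=
  (∀ (n k : ℕ) (α β : Fin k → ℤ),
    ∑ σ : Equiv.Perm (Fin n), fixW α σ * fixW β σ = (n.factorial : ℤ) * mat n α β) →
  (∀ (n k : ℕ) (l m : Fin k → ℤ),
    ∑ i, l i = n + (k.choose 2 : ℕ) → ∑ i, m i = n + (k.choose 2 : ℕ) →
    ∑ τ : Equiv.Perm (Fin k), ∑ τ' : Equiv.Perm (Fin k),
      (Equiv.Perm.sign τ : ℤ) * (Equiv.Perm.sign τ' : ℤ) *
        mat n (fun i => l i - ((τ i : ℕ) : ℤ)) (fun i => m i - ((τ' i : ℕ) : ℤ)) = kp l m) →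
  ∀ (n k : ℕ) (l : Fin k → ℤ), StrictMono l → (∀ i, 0 ≤ l i) →
    ∑ i, l i = n + (k.choose 2 : ℕ) →
    ∑ σ : Equiv.Perm (Fin n), vch l σ ^ 2 = (n.factorial : ℤ)

/-- SPN (90 lines). If `α` has a negative entry or `∑ α ≠ n` then `fixW α = 0`. Otherwise
`fixW (α ∘ ρ) = fixW α` (rename the letters), so let `α` be increasing (`Tuple.sort`). Then
`l i = α i + i` is strictly increasing and `vch l = ∑_τ sign τ fixW (α + id - τ)`. The term `τ = 1`
is `fixW α`; for `τ ≠ 1` the vector `α' = α + id - τ` has `∑ α'² > ∑ α²` (rearrangement inequality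
`∑ α i (i - τ i) ≥ 0`, and `∑ (i - τ i)² > 0`). Induction on `n² - ∑ α²` (a vector with
nonnegative entries and sum `n` has `∑ α² ≤ n²`). -/
def S_SPN : Prop := ∀ (n k : ℕ) (α : Fin k → ℤ),
  (fun σ : Equiv.Perm (Fin n) => fixW α σ) ∈ Submodule.span ℤ
    {f : Equiv.Perm (Fin n) → ℤ | ∃ l : Fin k → ℤ, StrictMono l ∧ (∀ i, 0 ≤ l i) ∧
      ∑ i, l i = n + (k.choose 2 : ℕ) ∧ f = fun σ => vch l σ}

/-- INT (70 lines). If there is no word of content `α` take `z = 0`. Otherwise fix such a word `w0`,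
`H` = its stabiliser, `d` = dimension of the invariants of `H` in `V`
(`FDRep.average_char_eq_finrank_invariants` for the restriction of `V` to `H`). Exchange the sums:
the left side is `∑_w ∑_{σ ∈ Stab w} V.character σ`. Words of content `α` are `w = w0 ∘ ρ`, the
stabilisers are conjugate and `V.character` is a class function, so each inner sum is `|H| d`; the
number of words times `|H|` is `n!`. -/
def S_INT : Prop := ∀ (n k : ℕ) (V : FDRep ℂ (Equiv.Perm (Fin n))) (α : Fin k → ℤ), ∃ z : ℤ,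
  ∑ σ : Equiv.Perm (Fin n), V.character σ * ((fixW α σ : ℤ) : ℂ) = (n.factorial : ℂ) * (z : ℂ)

/-- DEG (70 lines). `vch l 1 = ∑_τ sign τ [all l i ≥ τ i] n! / ∏ (l i - τ i)!`
(`Nat.multinomial`: number of words with given content). Times `∏ (l i)!` this is
`n! ∑_τ sign τ ∏_i (l i).descFactorial (τ i) = n! det ((l i).descFactorial j)`, a determinant of
monic polynomials of degree `j` in `l i`
(`Matrix.det_eval_matrixOfPolynomials_eq_det_vandermonde`, `descPochhammer`),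
`Matrix.det_vandermonde`. -/
def S_DEG : Prop := ∀ (n k : ℕ) (l : Fin k → ℕ), ∑ i, l i = n + k.choose 2 →
  vch (fun i => (l i : ℤ)) (1 : Equiv.Perm (Fin n)) * ∏ i, (((l i).factorial : ℕ) : ℤ) =
    (n.factorial : ℤ) * ∏ i, ∏ j ∈ Ioi i, ((l j : ℤ) - l i)

/-- CNJ (40 lines). Let `M g` be the matrix of `V.ρ g` in a basis, `H = ∑_g (M g)ᴴ * M g`, positive
definite, `(M g)ᴴ * H * M g = H`, so `(M g)ᴴ = H * M g⁻¹ * H⁻¹`; take traces. -/
def S_CNJ : Prop := ∀ (G : Type) [Group G] [Finite G] (V : FDRep ℂ G) (g : G),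
  V.character g⁻¹ = (starRingEnd ℂ) (V.character g)

/-- IRR (80 lines). Let `χ = V.character`, `α = (1, ..., 1, 0, ..., 0)` (`n` ones). Then `fixW α` is
`n!` at `1` and `0` elsewhere, so `∑ χ fixW α = n! χ(1) ≠ 0`, and by `SPN` there is a strictly
increasing nonnegative `l` with `∑_σ χ(σ) vch l σ = n! a`, `a ≠ 0`; by `INT` `a` is an integer. By
`FDRep.char_orthonormal` and `CNJ` `∑ |χ|² = n!`, by `NRM` `∑ (vch l)² = n!`, so
`0 ≤ ∑ |χ - a vch l|² = n! (1 - a²)` gives `a = ± 1` and `χ = a vch l`; evaluate at `1` and use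
`DEG`; the sign is `+` since both sides are positive. The hypotheses are the conclusions of
the other pieces. -/
def S_IRR : Prop :=
  (∀ (n k : ℕ) (l : Fin k → ℤ), StrictMono l → (∀ i, 0 ≤ l i) →
    ∑ i, l i = n + (k.choose 2 : ℕ) →
    ∑ σ : Equiv.Perm (Fin n), vch l σ ^ 2 = (n.factorial : ℤ)) →
  S_SPN → S_INT → S_DEG → S_CNJ →
  ∀ (n k : ℕ), n ≤ k → ∀ V : FDRep ℂ (Equiv.Perm (Fin n)), Simple V →
    ∃ l : Fin k → ℕ, StrictMono l ∧ ∑ i, l i = n + k.choose 2 ∧ IsDeg n l (Module.finrank ℂ V)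

/-- DIV (30 lines). Tensor product of the list (`FDRep.char_tensor`, unit: the trivial
representation), its character is `∏ dim` at `1` and `0` elsewhere;
`FDRep.average_char_eq_finrank_invariants`. -/
def S_DIV : Prop := ∀ (G : Type) [Group G] [Fintype G] (L : List (FDRep ℂ G)),
  (∀ g : G, g ≠ 1 → ∃ V ∈ L, V.character g = 0) →
  Fintype.card G ∣ (L.map (fun V : FDRep ℂ G => Module.finrank ℂ V)).prod

/-! ## B. Arithmetic of the degrees -/

/-- VAL (70 lines). `v_p(f) = v_p(n!) - ∑_a (v_p((l a)!) - ∑_{b<a} v_p(l a - l b))`, and for each `a`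
the difference is the sum of `v_p(h)` over `1 ≤ h ≤ l a` not of the form `l a - l b`, at least the
number `l a / p - #{b < a : p ∣ l a - l b}` of such `h` divisible by `p`. -/
def S_VAL : Prop := ∀ (n k f p : ℕ) (l : Fin k → ℕ), p.Prime → StrictMono l → IsDeg n l f →
  (padicValNat p f : ℤ) + wt p l ≤ (padicValNat p n.factorial : ℤ)

/-- COR (60 lines). With `b_j` the number of `a` with `l a % p = j`: `∑ (l a / p) =
(∑ l - ∑_j j b_j) / p`, the number of pairs `b < a` in the same class is `∑_j b_j (b_j - 1) / 2`,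
`b_j = k/p + cc_j`, `∑_j cc_j = 0`. -/
def S_COR : Prop := ∀ (n k p : ℕ) (l : Fin k → ℕ), 0 < p → p ∣ k → ∑ i, l i = n + k.choose 2 →
  2 * (p : ℤ) * wt p l = 2 * n - 2 * ∑ j ∈ range p, (j : ℤ) * cc p l j - p * dd p l

/-- PER (60 lines). Write `x = q M + r`, `A = |F r|`, `u = q - k/M`. For `u ≥ 0`,
`|2x+1-2k| ≥ 2 M u`; for `u = -v-1`, `v ≥ 0`, `|2x+1-2k| ≥ 2 M v`. And
`∑_{u < U} max (A - 2 M u) 0 ≤ A + A²/(4M)` for every `U`, because for `u ≥ 1`
`max (A - 2Mu) 0 ≤ (g(u-1) - g(u))/(4M)`, `g(u) = (max (A - 2Mu) 0)²`. (Checked by computer.) -/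
def S_PER : Prop := ∀ (F : ℕ → ℤ) (M k Q : ℕ), 0 < M → M ∣ k → (∀ x, F (x + M) = F x) →
  2 * (M : ℤ) * ∑ x ∈ range (Q * M), max (|F x| - |2 * (x : ℤ) + 1 - 2 * k|) 0 ≤
    ∑ r ∈ range M, (4 * (M : ℤ) * |F r| + F r ^ 2)

/-- ORG (50 lines). Expand the square. For primes `p ≠ q` in `P` the sum over `x < M = ∏ P` of
`c p (x % p) * c q (x % q)` is `M/(pq) (∑_j c p j)(∑_j c q j) = 0`; for `p = q` it is
`(M/p) ∑_j (c p j)²`. -/
def S_ORG : Prop := ∀ (P : Finset ℕ) (c : ℕ → ℕ → ℤ), (∀ p ∈ P, p.Prime) →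
  (∀ p ∈ P, ∑ j ∈ range p, c p j = 0) →
  ∑ x ∈ range (∏ p ∈ P, p), (∑ p ∈ P, (p : ℤ) * c p (x % p)) ^ 2 =
    ((∏ p ∈ P, p : ℕ) : ℤ) * ∑ p ∈ P, (p : ℤ) * ∑ j ∈ range p, c p j ^ 2

/-- SIE (large sieve, 100 lines). `M = ∏ P`, `D = ∑_p p dd_p`, `F x = ∑_{p ∈ P} p cc_p(x % p)`,
`s x = [x ∈ range l] - [x < k]` for `x < Q M` (`Q M > l a` for all `a`, `Q M ≥ k`). Then
`D = ∑_x s x F x` (as `p ∣ k`), `∑_x s x (2x+1-2k) = 2n`, and `s x (2x+1-2k) = |s x| |2x+1-2k|`.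
Hence `D ≤ 2n + ∑_x max (|F x| - |2x+1-2k|) 0`. By `PER` and `ORG` (`∑_{r<M} F² = M D`) the last sum
is at most `2 ∑_{r<M} |F r| + D/2 ≤ D/4 + 4M² + D/2` (`2|F| ≤ F²/(4M) + 4M`). So
`D ≤ 8n + 16M²`. -/
def S_SIE : Prop := S_PER → S_ORG → ∀ (P : Finset ℕ) (n k : ℕ) (l : Fin k → ℕ),
  (∀ p ∈ P, p.Prime) → (∏ p ∈ P, p) ∣ k → StrictMono l → ∑ i, l i = n + k.choose 2 →
  ∑ p ∈ P, (p : ℤ) * dd p l ≤ 8 * n + 16 * ((∏ p ∈ P, p : ℕ) : ℤ) ^ 2

/-- FIN (90 lines). `N ≥ 1`; `P` = set of `17 N` primes `≥ 2N`, `M₀ = ∏ P`,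
`n₀ = 32 M₀² + ∑ p³ + 1`. Let `L` have length `t ≤ N` (`t ≥ 1` as `n ≥ 2`), `l_i` the vectors.
For `p ∈ P`: `v_p(n!) ≤ ∑ v_p(f_i) ≤ ∑ (v_p(n!) - wt_i)`, and `(p-1) v_p(n!) ≤ n`, so
`(p-1) ∑ wt_i ≤ (t-1) n`. By `COR` `∑_i (2 ∑_j j cc_j + p dd_i) = 2tn - 2p ∑ wt_i`, and
`2 j cc_j ≤ cc_j² + j²`, so
`(p-1) ∑_i (2p dd_i + p³) ≥ 2n(p-t) ≥ n(p-1)`: `n ≤ ∑_i (2p dd_i + p³)`. Sum over `p ∈ P` and use
`SIE`: `17 N n ≤ t(16n + 32M₀² + ∑p³)`, so `n ≤ 32M₀² + ∑p³`. The third hypothesis is the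
conclusion of `SIE`. -/
def S_FIN : Prop := S_VAL → S_COR →
  (∀ (P : Finset ℕ) (n k : ℕ) (l : Fin k → ℕ),
    (∀ p ∈ P, p.Prime) → (∏ p ∈ P, p) ∣ k → StrictMono l → ∑ i, l i = n + k.choose 2 →
    ∑ p ∈ P, (p : ℤ) * dd p l ≤ 8 * n + 16 * ((∏ p ∈ P, p : ℕ) : ℤ) ^ 2) →
  ∀ N : ℕ, ∃ M₀ n₀ : ℕ, 0 < M₀ ∧ ∀ n k : ℕ, n₀ < n → M₀ ∣ k → ∀ L : List ℕ, L.length ≤ N →
    (∀ f ∈ L, ∃ l : Fin k → ℕ, StrictMono l ∧ ∑ i, l i = n + k.choose 2 ∧ IsDeg n l f) →
    ¬ (n.factorial ∣ L.prod)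

/-- The main theorem. -/
def S_MAIN : Prop := ∀ N : ℕ, ∃ M : ℕ, ∀ n : ℕ, M < n →
  ∀ L : List (FDRep ℂ (Equiv.Perm (Fin n))), (∀ V ∈ L, Simple V) →
    (∀ σ : Equiv.Perm (Fin n), σ ≠ 1 → ∃ V ∈ L, V.character σ = 0) → N < L.length

end Pool.Agent.Run7.h601.ZN
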